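import Pool.Agent.Lib.MP_0fc3df_an.XMain

/-!
# MP_0fc3df: invariant functions and sets of the billiard flow in the 3-4-5 triangle that are regular in the direction

A measurable function on the phase space of the billiard flow in the triangle with the side lengths 3, 4, 5 which is invariant
under the flow and whose modulus of continuity in the direction is `o(δ log (1/δ))` for some sequence `δ → 0` is almost
everywhere constant.  Examples: functions of bounded variation in the direction, indicators of sets of finite perimeter.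
-/

set_option autoImplicit false

namespace Pool.Agent.Results.MP_0fc3df_an.DirectionModulus

open MeasureTheory Set Filter Topology ComplexConjugate
open scoped ENNReal

/-- the circle of directions `ℝ / 2πℤ`; its `volume` is the arc length -/
abbrev Dir : Type := AddCircle (2 * Real.pi)

/-- the unit vector `exp (i θ)` with direction `θ` -/
noncomputable def vec (θ : Dir) : ℂ := (AddCircle.toCircle θ : ℂ)

/-- the open triangle with the vertices `0`, `4`, `3 i` -/
def triangle : Set ℂ := {z | 0 < z.re ∧ 0 < z.im ∧ 3 * z.re + 4 * z.im < 12}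

/-- the three open sides of the triangle -/
def side : Fin 3 → Set ℂ :=
  ![{z | z.re = 0 ∧ 0 < z.im ∧ z.im < 3}, {z | z.im = 0 ∧ 0 < z.re ∧ z.re < 4},
    {z | 3 * z.re + 4 * z.im = 12 ∧ 0 < z.re ∧ 0 < z.im}]

/-- the linear reflections of the plane in the directions of the three sides -/
noncomputable def reflect : Fin 3 → ℂ → ℂ :=
  ![fun v => - conj v, fun v => conj v, fun v => (7 - 24 * Complex.I) / 25 * conj v]

/-- `Orbit p t q`: the billiard orbit which starts at `p = (position, direction)` is at `q` after the time `t`; both positions are in the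
open triangle, and in between the orbit meets the boundary only in finitely many interior points of sides -/
inductive Orbit (p : ℂ × Dir) : ℝ → ℂ × Dir → Prop
  | free (t : ℝ) : p.1 ∈ triangle → 0 ≤ t → p.1 + (t : ℂ) * vec p.2 ∈ triangle →
      Orbit p t (p.1 + (t : ℂ) * vec p.2, p.2)
  | bounce (t s r : ℝ) (q : ℂ × Dir) (i : Fin 3) (θ : Dir) : Orbit p t q → 0 < s → 0 < r →
      q.1 + (s : ℂ) * vec q.2 ∈ side i → vec θ = reflect i (vec q.2) →
      q.1 + (s : ℂ) * vec q.2 + (r : ℂ) * vec θ ∈ triangle →
      Orbit p (t + s + r) (q.1 + (s : ℂ) * vec q.2 + (r : ℂ) * vec θ, θ)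

open Pool.Bil

private theorem side_eq (i : Fin 3) : T345.side i = side i := by
  ext z
  fin_cases i
  · simp [Poly.side, side, T345, dt, Fin.forall_fin_succ]
    intro h1 h2
    constructor
    · intro h3; rw [h1] at h3; linarith
    · intro h3; rw [h1]; linarith
  · simp [Poly.side, side, T345, dt, Fin.forall_fin_succ]
    intro h1 h2
    constructor
    · intro h3; rw [h1] at h3; linarith
    · intro h3; rw [h1]; linarith
  · simp [Poly.side, side, T345, dt, Fin.forall_fin_succ]
    intro h1 h2
    constructor
    · intro h3; linarith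
    · intro h3; linarith

private theorem rfv_eq (i : Fin 3) (v : ℂ) : T345.rfv i v = reflect i v := by
  fin_cases i
  · apply Complex.ext
    · simp [Poly.rfv, reflect, T345, dt]; ring
    · simp [Poly.rfv, reflect, T345, dt]
  · apply Complex.ext
    · simp [Poly.rfv, reflect, T345, dt]
    · simp [Poly.rfv, reflect, T345, dt]; ring
  · apply Complex.ext <;> simp [Poly.rfv, reflect, T345, dt] <;> ring

private theorem orbit_of_fl {p : ℂ × Dir} {t : ℝ} {L : List (Fin 3)} (hp : p.1 ∈ T345.dom)
    (h : T345.Fl p.1 (dir p.2) t L) : Orbit p t (T345.Psi L t p) := by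
  induction h with
  | @stay t h0 h1 =>
    rw [T345_dom] at hp h1
    exact Orbit.free t hp h0 h1
  | @bounce t t' s r i L hF hs hr ht hz hd ih =>
    have e1 : (T345.Psi L t p).1 + (s : ℂ) * vec (T345.Psi L t p).2
        = T345.fold L (p.1 + ((t + s : ℝ) : ℂ) * dir p.2) := by
      rw [T345.fold_line, ← T345.dir_foldth]; rfl
    have e2 : T345.Psi (i :: L) t' p = ((T345.Psi L t p).1 + (s : ℂ) * vec (T345.Psi L t p).2
        + (r : ℂ) * vec (T345.ang i - T345.foldth L p.2), T345.ang i - T345.foldth L p.2) := by
      refine Prod.ext ?_ rfl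
      change T345.fold (i :: L) (p.1 + (t' : ℂ) * dir p.2) = _ + (r : ℂ) * dir (T345.ang i - T345.foldth L p.2)
      rw [e1, T345.dir_ang, T345.dir_foldth, Poly.fold, show t' = (t + s) + r by linarith, T345.fold_line L _ _ (t + s) r,
        T345.rf_add, T345.rfv_smul, T345.rf_of_line hz.1]
    rw [e2, show t' = t + s + r by linarith]
    refine Orbit.bounce t s r _ i _ ih hs hr ?_ ?_ ?_
    · rw [e1, ← side_eq]; exact hz
    · change dir (T345.ang i - T345.foldth L p.2) = _
      rw [T345.dir_ang, rfv_eq]; rfl
    · have : T345.fold (i :: L) (p.1 + (t' : ℂ) * dir p.2) ∈ triangle := by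
        have := T345_dom ▸ hd
        exact this
      have e3 : T345.fold (i :: L) (p.1 + (t' : ℂ) * dir p.2) = (T345.Psi (i :: L) t' p).1 := rfl
      rw [e3, e2] at this
      exact this

/-- **Theorem.** Let `f` be a measurable function on `T × S¹`, `T` the open 3-4-5 triangle, which is invariant under the billiard flow
(almost everywhere for every time).  If for every `ε > 0` there are arbitrarily small `δ > 0` such that
`∫ min (1, |f (z, θ + δ) - f (z, θ)|) ≤ ε δ log (1/δ)` (integral over `T × S¹`) then `f` is almost everywhere constant.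
For `f = 1_A` the integral is the measure of the set of the points `(z, θ)` of `T × S¹` such that exactly one of `(z, θ)`,
`(z, θ + δ)` is in `A`. -/
theorem result (f : ℂ × Dir → ℝ) (hf : Measurable f)
    (hinv : ∀ t : ℝ, 0 ≤ t → ∀ᵐ p : ℂ × Dir, ∀ q : ℂ × Dir, Orbit p t q → f q = f p)
    (hmod : ∀ ε : ℝ, 0 < ε → ∃ᶠ δ : ℝ in 𝓝[>] 0,
      ∫⁻ p in triangle ×ˢ univ, min 1 ‖f (p.1, p.2 + (δ : Dir)) - f p‖ₑ ≤ ENNReal.ofReal (ε * (δ * Real.log (1 / δ)))) :
    ∃ c : ℝ, ∀ᵐ p : ℂ × Dir, p.1 ∈ triangle → f p = c := by
  have hdom : T345.dom = triangle := T345_dom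
  have hi : T345.Inv f := by
    intro t ht
    filter_upwards [hinv t ht] with p hp hpd L hL
    exact hp _ (orbit_of_fl hpd hL)
  have hset : {p : ℂ × Dir | p.1 ∈ T345.dom} = triangle ×ˢ univ := by
    ext p
    simp [hdom]
  obtain ⟨c, hc⟩ := main_log hf hi (fun ε hε => (hmod ε hε).mono fun h hh => by
    have e : wv f h = ∫⁻ p in triangle ×ˢ univ, min 1 ‖f (p.1, p.2 + (h : Dir)) - f p‖ₑ := by
      unfold wv
      rw [hset]
    rw [e]; exact hh)
  refine ⟨c, ?_⟩
  rw [hdom] at hc
  exact hc

end Pool.Agent.Results.MP_0fc3df_an.DirectionModulus
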